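import Pool.Agent.Work.MP_215640_nt.Half
import Pool.Agent.Work.MP_215640_nt.Walk

/-!
Assembly: natural density of the parity words of juggler sequences.
-/

set_option autoImplicit false

namespace Pool.Agent.Work.MP_215640_nt

open Filter Finset N55eda7c2

open Classical in
theorem pat_natural (w : ℕ → Bool) (K : ℕ) :
    Tendsto (fun x : ℕ => (((range x).filter (fun n => Pat w w (range (K + 1)) n)).card : ℝ) / x)
      atTop (nhds ((1 / 2) ^ (K + 1))) := by
  apply dyadic
  apply pat_density
  intro i h1 h2 α β h3 h4 h5
  exact half w K i h1 h2 w α β h3 h4 h5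

open Classical in
theorem words (k : ℕ) (w : ℕ → Prop) :
    Tendsto (fun x : ℕ => (((range x).filter
      (fun n : ℕ => ∀ j < k, (Odd (jugglerStep^[j] n) ↔ w j))).card : ℝ) / x) atTop
      (nhds ((1 / 2) ^ k)) := by
  cases k with
  | zero =>
    simp only [not_lt_zero, false_imp_iff, implies_true, filter_true, card_range, pow_zero]
    refine tendsto_const_nhds.congr' ?_
    filter_upwards [eventually_gt_atTop 0] with x hx
    have : (x : ℝ) ≠ 0 := by positivity
    field_simp
  | succ K =>
    have h := pat_natural (fun j => decide (w j)) K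
    refine h.congr fun x => ?_
    congr 3
    ext n
    simp only [mem_filter, mem_range, and_congr_right_iff]
    intro _
    rw [← word_iff]
    apply forall_congr'
    intro j
    apply imp_congr_right
    intro _
    rw [← Nat.odd_iff, decide_eq_true_iff]

open Classical in
theorem below (ε : ℝ) (hε : 0 < ε) :
    Tendsto (fun x : ℕ => (((range x).filter
      (fun n : ℕ => ∃ k : ℕ, (jugglerStep^[k] n : ℝ) < (n : ℝ) ^ ε)).card : ℝ) / x) atTop
      (nhds 1) :=
  below_power pat_natural ε hε

end Pool.Agent.Work.MP_215640_nt
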